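import Mathlib
import Pool.Agent.Y322.IV.Stm

set_option autoImplicit false

open Set MeasureTheory Function
open scoped unitInterval ContDiff

namespace Pool.Agent.Y288.IV

open Pool.Agent.Y322.IV

theorem prove_bump : S_BUMP := by
  intro E _ _ _ ε hε
  classical
  let c : ℕ → E := TopologicalSpace.denseSeq E
  let B : ∀ j : ℕ, ContDiffBump (c j.unpair.1) := fun j =>
    { rIn := 1 / (2 * ((j.unpair.2 : ℝ) + 1))
      rOut := 1 / ((j.unpair.2 : ℝ) + 1)
      rIn_pos := by positivity
      rIn_lt_rOut := by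
        apply one_div_lt_one_div_of_lt
        · positivity
        · have : (0 : ℝ) ≤ (j.unpair.2 : ℝ) := by positivity
          linarith }
  have hsupp : ∀ j, Function.support (B j) = Metric.ball (c j.unpair.1) (1 / ((j.unpair.2 : ℝ) + 1)) :=
    fun j => (B j).support_eq
  have hbd : ∀ j k : ℕ, ∃ A : ℝ, ∀ x, ‖iteratedFDeriv ℝ k (B j) x‖ ≤ A := by
    intro j k
    have h1 : ContDiff ℝ ∞ (B j) := (B j).contDiff
    have h2 : Continuous (iteratedFDeriv ℝ k (B j)) := h1.continuous_iteratedFDeriv (by
      exact_mod_cast le_top)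
    exact h2.bounded_above_of_compact_support ((B j).hasCompactSupport.iteratedFDeriv k)
  choose A hA using hbd
  let D : ℕ → ℝ := fun j => 1 + ∑ k ∈ Finset.range (j + 1), |A j k|
  have hD : ∀ j, 0 < D j := fun j => by
    have : 0 ≤ ∑ k ∈ Finset.range (j + 1), |A j k| := Finset.sum_nonneg fun _ _ => abs_nonneg _
    show 0 < 1 + ∑ k ∈ Finset.range (j + 1), |A j k|
    linarith
  let a : ℕ → ℝ := fun j => ε / (2 ^ j * D j)
  have ha : ∀ j, 0 < a j := fun j => by
    have := hD j
    show 0 < ε / (2 ^ j * D j)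
    positivity
  let g : ℕ → E → ℝ := fun j x => a j • B j x
  have hpos : ∀ j x, 0 < g j x ↔ x ∈ Metric.ball (c j.unpair.1) (1 / ((j.unpair.2 : ℝ) + 1)) := by
    intro j x
    rw [← hsupp j]
    show 0 < a j • B j x ↔ B j x ≠ 0
    rw [smul_eq_mul]
    constructor
    · intro h h0
      rw [h0, mul_zero] at h
      exact lt_irrefl _ h
    · intro h
      exact mul_pos (ha j) (lt_of_le_of_ne (B j).nonneg (Ne.symm h))
  refine ⟨g, fun j => ?_, fun j => ?_, fun j x => ?_, fun j => ?_, fun j k hk x => ?_, ?_⟩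
  · have h1 : ContDiff ℝ ∞ (B j) := (B j).contDiff
    exact contDiff_const.mul h1
  · exact (B j).hasCompactSupport.smul_left (f := fun _ => a j)
  · exact mul_nonneg (ha j).le (B j).nonneg
  · have : {x | 0 < g j x} = Metric.ball (c j.unpair.1) (1 / ((j.unpair.2 : ℝ) + 1)) := by
      ext x
      exact hpos j x
    rw [this]
    exact convex_ball _ _
  · have h1 : ContDiff ℝ k (B j) := (B j).contDiff
    have h2 : iteratedFDeriv ℝ k (g j) x = a j • iteratedFDeriv ℝ k (B j) x := by
      have h5 : g j = a j • (B j : E → ℝ) := rfl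
      rw [h5]
      exact iteratedFDeriv_const_smul_apply (a := a j) (h1.contDiffAt)
    rw [h2, norm_smul, Real.norm_eq_abs, abs_of_pos (ha j)]
    have h3 : ‖iteratedFDeriv ℝ k (B j) x‖ ≤ D j := by
      have h4 : |A j k| ≤ ∑ k ∈ Finset.range (j + 1), |A j k| :=
        Finset.single_le_sum (f := fun k => |A j k|) (fun _ _ => abs_nonneg _)
          (Finset.mem_range.2 (by omega))
      have h5 := hA j k x
      have h6 := le_abs_self (A j k)
      show _ ≤ 1 + ∑ k ∈ Finset.range (j + 1), |A j k|
      linarith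
    have h4 := hD j
    calc a j * ‖iteratedFDeriv ℝ k (B j) x‖ ≤ a j * D j :=
          mul_le_mul_of_nonneg_left h3 (ha j).le
      _ = ε / 2 ^ j := by
          show ε / (2 ^ j * D j) * D j = ε / 2 ^ j
          field_simp
  · intro q S hS hq
    obtain ⟨δ, hδ, hball⟩ := Metric.isOpen_iff.1 hS.isClosed.isOpen_compl q hq
    obtain ⟨m, hm⟩ := exists_nat_one_div_lt (show (0 : ℝ) < δ / 2 by positivity)
    obtain ⟨i, hi⟩ := (TopologicalSpace.denseRange_denseSeq E).exists_dist_lt q
      (show (0 : ℝ) < 1 / ((m : ℝ) + 1) by positivity)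
    refine ⟨Nat.pair i m, ?_, fun x hx => ?_⟩
    · rw [hpos, Nat.unpair_pair]
      exact hi
    · have h1 : ¬ (0 < g (Nat.pair i m) x) := by
        rw [hpos, Nat.unpair_pair]
        intro h
        rw [Metric.mem_ball] at h
        have h2 : x ∈ Metric.ball q δ := by
          rw [Metric.mem_ball]
          have h3 := dist_triangle x (c i) q
          have h4 : dist (c i) q < 1 / ((m : ℝ) + 1) := by
            rw [dist_comm]; exact hi
          simp only at h
          linarith
        exact hball h2 hx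
      have h2 : 0 ≤ g (Nat.pair i m) x := mul_nonneg (ha _).le (B _).nonneg
      exact le_antisymm (not_lt.1 h1) h2

end Pool.Agent.Y288.IV
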